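import Mathlib

/-!
# The Maker-Breaker domination game

Definitions for problem MP_374a5d_co: the game and the Maker-Breaker domination number.
-/

namespace Pool.Agent.MP374a5d

open Finset

variable {V : Type*}

/-- The set `D` of vertices is dominating in `G`: every vertex lies in `D` or has a neighbour in
`D`. -/
def Dominating (G : SimpleGraph V) (D : Finset V) : Prop :=
  ∀ v, v ∈ D ∨ ∃ u ∈ D, G.Adj u v

variable [DecidableEq V]

/-- `Wins G k D S`: in the position of the Maker-Breaker domination game on `G` in which Dominator
has picked the vertices of `D`, Staller has picked the vertices of `S` and Dominator is to move,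
Dominator can force that his set becomes dominating within his next `k` moves (or it is dominating
already). In a move he picks a free vertex `v`; he has won if his set is then dominating; otherwise
Staller has to have a free vertex to pick (else the game is over and she has won), and Dominator
has to be able to go on after every choice `w` of Staller among the free vertices. -/
def Wins (G : SimpleGraph V) : ℕ → Finset V → Finset V → Prop
  | 0, D, _ => Dominating G D
  | k + 1, D, S => Dominating G D ∨
      ∃ v, v ∉ D ∪ S ∧ (Dominating G (insert v D) ∨
        ((∃ w, w ∉ insert v D ∪ S) ∧
          ∀ w, w ∉ insert v D ∪ S → Wins G k (insert v D) (insert w S)))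

/-- The Maker-Breaker domination number `γ_MB(G)`: the least `k` such that Dominator, moving first
on the empty board, can win within his first `k` moves; it is `⊤` if there is no such `k`. -/
noncomputable def gammaMB (G : SimpleGraph V) : ℕ∞ :=
  ⨅ (k : ℕ) (_ : Wins G k ∅ ∅), (k : ℕ∞)

end Pool.Agent.MP374a5d
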