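import Pool.Agent.Lib.MP_374a5d_co.Defs

/-!
# Lemmas about the Maker-Breaker domination game

General lemmas used to analyse a graph glued from small pieces.
-/

namespace Pool.Agent.MP374a5d

open Finset

variable {V : Type*} [DecidableEq V]

/-- The position with Staller to move, Dominator having at most `k` more moves. -/
def WinsS (G : SimpleGraph V) (k : ℕ) (D S : Finset V) : Prop :=
  Dominating G D ∨ ((∃ w, w ∉ D ∪ S) ∧ ∀ w, w ∉ D ∪ S → Wins G k D (insert w S))

theorem wins_succ {G : SimpleGraph V} {k : ℕ} {D S : Finset V} :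
    Wins G (k + 1) D S ↔ Dominating G D ∨ ∃ v, v ∉ D ∪ S ∧ WinsS G k (insert v D) S := Iff.rfl

theorem wins_zero {G : SimpleGraph V} {D S : Finset V} :
    Wins G 0 D S ↔ Dominating G D := Iff.rfl

/-! ### Staller claims a clause -/

/-- `SW 𝒞 W S`: Staller, to move and owning `S`, can force to own a member of `𝒞`, and for this
she only uses the vertices of `W` (which are free). -/
inductive SW (𝒞 : Set (Finset V)) : Finset V → Finset V → Prop
  | win {W S c : Finset V} (hc : c ∈ 𝒞) (h : c ⊆ S) : SW 𝒞 W S
  | move {W S : Finset V} {s : V} (hs : s ∈ W) (f : V → Finset V)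
      (h1 : ∀ d, f d ⊆ W.erase s) (h2 : ∀ d, d ∉ f d)
      (h3 : ∀ d, SW 𝒞 (f d) (insert s S)) : SW 𝒞 W S

theorem SW.exists_clause {𝒞 : Set (Finset V)} {W S : Finset V} (h : SW 𝒞 W S) :
    ∃ c ∈ 𝒞, c ⊆ W ∪ S := by
  induction h with
  | @win W S c hc h => exact ⟨c, hc, h.trans subset_union_right⟩
  | @move W S s hs f h1 h2 h3 ih =>
    obtain ⟨c, hc, h⟩ := ih s
    refine ⟨c, hc, fun u hu => ?_⟩
    have := h hu
    simp only [mem_union, mem_insert] at this ⊢
    rcases this with h' | h' | h'
    · exact Or.inl (mem_of_mem_erase (h1 s h'))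
    · exact Or.inl (h' ▸ hs)
    · exact Or.inr h'

theorem SW.mono {𝒞 : Set (Finset V)} {W S : Finset V} (h : SW 𝒞 W S) :
    ∀ {W' S' : Finset V}, W ⊆ W' → S ⊆ S' → SW 𝒞 W' S' := by
  induction h with
  | @win W S c hc h => intro W' S' _ hS; exact SW.win hc (h.trans hS)
  | @move W S s hs f h1 h2 h3 ih =>
    intro W' S' hW hS
    exact SW.move (hW hs) f (fun d => (h1 d).trans (erase_subset_erase _ hW)) h2
      (fun d => ih d (Subset.refl _) (insert_subset_insert _ hS))

theorem SW.map {U : Type*} [DecidableEq U] {𝒞 : Set (Finset U)} {𝒞' : Set (Finset V)}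
    (φ : U ↪ V) (hφ : ∀ c ∈ 𝒞, c.map φ ∈ 𝒞') {W S : Finset U} (h : SW 𝒞 W S) :
    SW 𝒞' (W.map φ) (S.map φ) := by
  classical
  induction h with
  | @win W S c hc h => exact SW.win (hφ c hc) (map_subset_map.2 h)
  | @move W S s hs f h1 h2 h3 ih =>
    refine SW.move (s := φ s) (mem_map_of_mem _ hs)
      (fun d => if h : ∃ e, φ e = d then (f h.choose).map φ else (f s).map φ) ?_ ?_ ?_
    · intro d
      have key : ∀ e, (f e).map φ ⊆ (W.map φ).erase (φ s) := by
        intro e
        rw [← map_erase]
        exact map_subset_map.2 (h1 e)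
      split_ifs
      · exact key _
      · exact key _
    · intro d
      split_ifs with h
      · intro hd
        rw [mem_map] at hd
        obtain ⟨e, he, hed⟩ := hd
        have : e = h.choose := φ.injective (hed.trans h.choose_spec.symm)
        exact h2 _ (this ▸ he)
      · intro hd
        rw [mem_map] at hd
        obtain ⟨e, he, hed⟩ := hd
        exact h ⟨e, hed⟩
    · intro d
      have key : ∀ e, SW 𝒞' ((f e).map φ) (insert (φ s) (S.map φ)) := by
        intro e
        rw [← map_insert]
        exact ih e
      split_ifs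
      · exact key _
      · exact key _

/-- The sets that contain the closed neighbourhood of some vertex. -/
def cl (G : SimpleGraph V) : Set (Finset V) :=
  {c | ∃ v, ∀ u, (u = v ∨ G.Adj u v) → u ∈ c}

omit [DecidableEq V] in
theorem not_dominating {G : SimpleGraph V} {D c : Finset V} (hc : c ∈ cl G)
    (hd : Disjoint D c) : ¬ Dominating G D := by
  intro h
  obtain ⟨v, hv⟩ := hc
  rcases h v with h' | ⟨u, hu, huv⟩
  · exact (disjoint_left.1 hd) h' (hv v (Or.inl rfl))
  · exact (disjoint_left.1 hd) hu (hv u (Or.inr huv))

theorem not_wins {G : SimpleGraph V} : ∀ (k : ℕ) (D S c : Finset V), c ∈ cl G → c ⊆ S →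
    Disjoint D S → ¬ Wins G k D S := by
  intro k
  induction k with
  | zero =>
    intro D S c hc hcS hd h
    exact not_dominating hc (disjoint_of_subset_right hcS hd) h
  | succ k ih =>
    intro D S c hc hcS hd h
    rcases h with h | ⟨v, hv, h⟩
    · exact not_dominating hc (disjoint_of_subset_right hcS hd) h
    · have hd' : Disjoint (insert v D) S := by
        rw [disjoint_insert_left]
        exact ⟨fun h' => hv (mem_union_right _ h'), hd⟩
      rcases h with h | ⟨⟨w, hw⟩, h⟩
      · exact not_dominating hc (disjoint_of_subset_right hcS hd') h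
      · refine ih (insert v D) (insert w S) c hc (hcS.trans (subset_insert _ _)) ?_ (h w hw)
        rw [disjoint_insert_right]
        exact ⟨fun h' => hw (mem_union_left _ h'), hd'⟩

theorem SW.not_winsS {G : SimpleGraph V} {W S : Finset V} (h : SW (cl G) W S) :
    ∀ (k : ℕ) (D : Finset V), Disjoint D S → Disjoint D W → Disjoint S W → ¬ WinsS G k D S := by
  induction h with
  | @win W S c hc h =>
    intro k D hDS _ _ h'
    rcases h' with h' | ⟨⟨w, hw⟩, h'⟩
    · exact not_dominating hc (disjoint_of_subset_right h hDS) h'
    · refine not_wins k D (insert w S) c hc (h.trans (subset_insert _ _)) ?_ (h' w hw)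
      rw [disjoint_insert_right]
      exact ⟨fun h' => hw (mem_union_left _ h'), hDS⟩
  | @move W S s hs f h1 h2 h3 ih =>
    intro k D hDS hDW hSW h'
    have hnd : ¬ Dominating G D := by
      obtain ⟨c, hc, hcs⟩ := (SW.move hs f h1 h2 h3).exists_clause
      exact not_dominating hc (disjoint_of_subset_right hcs (disjoint_union_right.2 ⟨hDW, hDS⟩))
    have hsD : s ∉ D := fun h => (disjoint_left.1 hDW) h hs
    have hsS : s ∉ S := fun h => (disjoint_left.1 hSW) h hs
    rcases h' with h' | ⟨_, h'⟩
    · exact hnd h'
    · have h4 := h' s (by simp [hsD, hsS])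
      cases k with
      | zero => exact hnd h4
      | succ k =>
        rcases h4 with h4 | ⟨d, hd, h4⟩
        · exact hnd h4
        · simp only [mem_union, mem_insert, not_or] at hd
          refine ih d k (insert d D) ?_ ?_ ?_ h4
          · rw [disjoint_insert_left, disjoint_insert_right]
            exact ⟨by simp [hd.2.1, hd.2.2], hsD, hDS⟩
          · rw [disjoint_insert_left]
            exact ⟨h2 d, disjoint_of_subset_right ((h1 d).trans (erase_subset _ _)) hDW⟩
          · rw [disjoint_insert_left]
            exact ⟨fun h => (notMem_erase s W) (h1 d h),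
              disjoint_of_subset_right ((h1 d).trans (erase_subset _ _)) hSW⟩

/-! ### Staller makes forcing moves only -/

/-- `Forc 𝒞 F S`: Staller, to move and owning `S`, has a sequence of moves in `F` such that every
one of them leaves Dominator a single answer (in `F`) that does not lose, and the sequence with
its answers exhausts `F`. -/
inductive Forc (𝒞 : Set (Finset V)) : Finset V → Finset V → Prop
  | nil {S : Finset V} : Forc 𝒞 ∅ S
  | step {F S : Finset V} {s r : V} (hs : s ∈ F) (hr : r ∈ F.erase s) (f : V → Finset V)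
      (h1 : ∀ d, d ≠ r → f d ⊆ F.erase s) (h2 : ∀ d, d ≠ r → d ∉ f d)
      (h3 : ∀ d, d ≠ r → SW 𝒞 (f d) (insert s S))
      (h4 : Forc 𝒞 ((F.erase s).erase r) (insert s S)) : Forc 𝒞 F S

theorem Forc.mono {𝒞 : Set (Finset V)} {F S : Finset V} (h : Forc 𝒞 F S) :
    ∀ {S' : Finset V}, S ⊆ S' → Forc 𝒞 F S' := by
  induction h with
  | nil => intro S' _; exact Forc.nil
  | @step F S s r hs hr f h1 h2 h3 h4 ih =>
    intro S' hS
    exact Forc.step hs hr f h1 h2
      (fun d hd => (h3 d hd).mono (Subset.refl _) (insert_subset_insert _ hS))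
      (ih (insert_subset_insert _ hS))

theorem Forc.map {U : Type*} [DecidableEq U] {𝒞 : Set (Finset U)} {𝒞' : Set (Finset V)}
    (φ : U ↪ V) (hφ : ∀ c ∈ 𝒞, c.map φ ∈ 𝒞') {F S : Finset U} (h : Forc 𝒞 F S) :
    Forc 𝒞' (F.map φ) (S.map φ) := by
  classical
  induction h with
  | nil => rw [map_empty]; exact Forc.nil
  | @step F S s r hs hr f h1 h2 h3 h4 ih =>
    have hsr : s ≠ r := by
      intro h
      rw [h] at hr
      exact notMem_erase _ _ hr
    have key : ∀ e, e ≠ r → (f e).map φ ⊆ (F.map φ).erase (φ s) := by
      intro e he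
      rw [← map_erase]
      exact map_subset_map.2 (h1 e he)
    have key3 : ∀ e, e ≠ r → SW 𝒞' ((f e).map φ) (insert (φ s) (S.map φ)) := by
      intro e he
      rw [← map_insert]
      exact (h3 e he).map φ hφ
    refine Forc.step (s := φ s) (r := φ r) (mem_map_of_mem _ hs) ?_
      (fun d => if h : ∃ e, φ e = d then (f h.choose).map φ else (f s).map φ) ?_ ?_ ?_ ?_
    · rw [← map_erase]
      exact mem_map_of_mem _ hr
    · intro d hd
      split_ifs with h
      · refine key _ ?_
        intro h'
        apply hd
        rw [← h.choose_spec, h']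
      · exact key _ hsr
    · intro d hd
      split_ifs with h
      · intro hd'
        rw [mem_map] at hd'
        obtain ⟨e, he, hed⟩ := hd'
        have : e = h.choose := φ.injective (hed.trans h.choose_spec.symm)
        refine h2 _ ?_ (this ▸ he)
        intro h'
        apply hd
        rw [← h.choose_spec, h']
      · intro hd'
        rw [mem_map] at hd'
        obtain ⟨e, he, hed⟩ := hd'
        exact h ⟨e, hed⟩
    · intro d hd
      split_ifs with h
      · refine key3 _ ?_
        intro h'
        apply hd
        rw [← h.choose_spec, h']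
      · exact key3 _ hsr
    · have := ih
      rw [map_erase, map_erase, map_insert] at this
      exact this

theorem Forc.union {𝒞 : Set (Finset V)} {F S : Finset V} (h : Forc 𝒞 F S) :
    ∀ {F' : Finset V}, Forc 𝒞 F' S → Disjoint F F' → Forc 𝒞 (F ∪ F') S := by
  induction h with
  | nil => intro F' h' _; rw [empty_union]; exact h'
  | @step F S s r hs hr f h1 h2 h3 h4 ih =>
    intro F' h' hd
    have hsF' : s ∉ F' := disjoint_left.1 hd hs
    have hrF' : r ∉ F' := disjoint_left.1 hd (mem_of_mem_erase hr)
    have e1 : ((F ∪ F').erase s).erase r = ((F.erase s).erase r) ∪ F' := by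
      ext v
      simp only [mem_erase, mem_union]
      constructor
      · rintro ⟨a, b, c | c⟩
        · exact Or.inl ⟨a, b, c⟩
        · exact Or.inr c
      · rintro (⟨a, b, c⟩ | c)
        · exact ⟨a, b, Or.inl c⟩
        · exact ⟨fun h => hrF' (h ▸ c), fun h => hsF' (h ▸ c), Or.inr c⟩
    refine Forc.step (s := s) (r := r) (mem_union_left _ hs) ?_ f ?_ h2 h3 ?_
    · rw [mem_erase] at hr ⊢
      exact ⟨hr.1, mem_union_left _ hr.2⟩
    · intro d hd'
      exact (h1 d hd').trans (erase_subset_erase _ subset_union_left)
    · rw [e1]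
      refine ih (h'.mono (subset_insert _ _)) ?_
      exact disjoint_of_subset_left ((erase_subset _ _).trans (erase_subset _ _)) hd

theorem Forc.biUnion {ι : Type*} [DecidableEq ι] {𝒞 : Set (Finset V)} {S : Finset V}
    (J : Finset ι) (A : ι → Finset V) (h : ∀ j ∈ J, Forc 𝒞 (A j) S)
    (hd : ∀ i j, i ≠ j → Disjoint (A i) (A j)) : Forc 𝒞 (J.biUnion A) S := by
  induction J using Finset.induction_on with
  | empty => rw [biUnion_empty]; exact Forc.nil
  | @insert a J ha ih =>
    rw [biUnion_insert]
    refine (h a (mem_insert_self _ _)).union (ih fun j hj => h j (mem_insert_of_mem hj)) ?_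
    rw [disjoint_biUnion_right]
    intro j hj
    exact hd a j (fun h => ha (h ▸ hj))

theorem Forc.not_winsS {G : SimpleGraph V} {F S : Finset V} (h : Forc (cl G) F S) :
    ∀ (k : ℕ) (D : Finset V), (∀ v, v ∈ F ↔ v ∉ D ∪ S) → Disjoint D S → 2 * k < F.card →
      ¬ WinsS G k D S := by
  induction h with
  | nil => intro k D _ _ h; simp at h
  | @step F S s r hs hr f h1 h2 h3 h4 ih =>
    intro k D hF hDS hk h'
    have hsr : s ≠ r := by
      intro h
      rw [h] at hr
      exact notMem_erase _ _ hr
    have hDF : Disjoint D F := by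
      rw [disjoint_left]
      intro v hv hv'
      exact (hF v).1 hv' (mem_union_left _ hv)
    have hSF : Disjoint S F := by
      rw [disjoint_left]
      intro v hv hv'
      exact (hF v).1 hv' (mem_union_right _ hv)
    have hnd : ¬ Dominating G D := by
      obtain ⟨c, hc, hcs⟩ := (h3 s hsr).exists_clause
      refine not_dominating hc ?_
      rw [disjoint_right]
      intro v hv hvD
      have := hcs hv
      simp only [mem_union, mem_insert] at this
      rcases this with h | h | h
      · exact disjoint_left.1 hDF hvD (mem_of_mem_erase (h1 s hsr h))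
      · exact disjoint_left.1 hDF hvD (h ▸ hs)
      · exact disjoint_left.1 hDS hvD h
    have hsD : s ∉ D := fun h => (disjoint_left.1 hDF) h hs
    have hsS : s ∉ S := fun h => (disjoint_left.1 hSF) h hs
    rcases h' with h' | ⟨_, h'⟩
    · exact hnd h'
    · have h5 := h' s (by simp [hsD, hsS])
      cases k with
      | zero => exact hnd h5
      | succ k =>
        rcases h5 with h5 | ⟨d, hd, h5⟩
        · exact hnd h5
        · have hd0 := hd
          simp only [mem_union, mem_insert, not_or] at hd
          have hdis : Disjoint (insert d D) (insert s S) := by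
            rw [disjoint_insert_left, disjoint_insert_right]
            exact ⟨by simp [hd.2.1, hd.2.2], hsD, hDS⟩
          by_cases hdr : d = r
          · subst hdr
            refine ih k (insert d D) ?_ hdis ?_ h5
            · intro v
              simp only [mem_erase, hF v, mem_union, mem_insert]
              tauto
            · have h6 := card_erase_add_one hs
              have h7 := card_erase_add_one hr
              omega
          · refine (h3 d hdr).not_winsS k (insert d D) hdis ?_ ?_ h5
            · rw [disjoint_insert_left]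
              exact ⟨h2 d hdr,
                disjoint_of_subset_right ((h1 d hdr).trans (erase_subset _ _)) hDF⟩
            · rw [disjoint_insert_left]
              exact ⟨fun h => (notMem_erase s F) (h1 d hdr h),
                disjoint_of_subset_right ((h1 d hdr).trans (erase_subset _ _)) hSF⟩

/-! ### Dominator answers -/

/-- `Safe A 𝒟`: Staller is to move and `A` is the set of free vertices; Dominator has answers (in
`A`) such that he picks a vertex of every member of `𝒟`. -/
inductive Safe : Finset V → Set (Finset V) → Prop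
  | mk {A : Finset V} {𝒟 : Set (Finset V)} (h0 : A = ∅ → 𝒟 = ∅) (f : V → V)
      (hf : ∀ s ∈ A, f s ∈ A.erase s)
      (h : ∀ s ∈ A, Safe ((A.erase s).erase (f s)) {c | c ∈ 𝒟 ∧ f s ∉ c}) : Safe A 𝒟

theorem Safe.mono {A : Finset V} {𝒟 : Set (Finset V)} (h : Safe A 𝒟) :
    ∀ {𝒟' : Set (Finset V)}, 𝒟' ⊆ 𝒟 → Safe A 𝒟' := by
  induction h with
  | @mk A 𝒟 h0 f hf h ih =>
    intro 𝒟' hs
    refine Safe.mk (fun hA => ?_) f hf (fun s hs' => ih s hs' ?_)
    · have := h0 hA
      rw [this] at hs
      exact Set.subset_empty_iff.1 hs
    · rintro c ⟨hc, hc'⟩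
      exact ⟨hs hc, hc'⟩

theorem Safe.union {A : Finset V} {𝒟 : Set (Finset V)} (h : Safe A 𝒟) :
    ∀ {A' : Finset V} {𝒟' : Set (Finset V)}, Safe A' 𝒟' → Disjoint A A' →
      Safe (A ∪ A') (𝒟 ∪ 𝒟') := by
  classical
  induction h with
  | @mk A 𝒟 h0 f hf h ih =>
    intro A' 𝒟' h'
    induction h' with
    | @mk A' 𝒟' h0' f' hf' h' ih' =>
      intro hd
      have hSafe' : Safe A' 𝒟' := Safe.mk h0' f' hf' h'
      refine Safe.mk (fun hA => ?_) (fun s => if s ∈ A then f s else f' s) ?_ ?_
      · rw [union_eq_empty] at hA
        rw [h0 hA.1, h0' hA.2, Set.union_empty]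
      · intro s hs
        split_ifs with hsA
        · have := hf s hsA
          rw [mem_erase] at this ⊢
          exact ⟨this.1, mem_union_left _ this.2⟩
        · have hsA' : s ∈ A' := (mem_union.1 hs).resolve_left hsA
          have := hf' s hsA'
          rw [mem_erase] at this ⊢
          exact ⟨this.1, mem_union_right _ this.2⟩
      · intro s hs
        by_cases hsA : s ∈ A
        · rw [if_pos hsA]
          have h1 : s ∉ A' := disjoint_left.1 hd hsA
          have h2 : f s ∉ A' := disjoint_left.1 hd (mem_of_mem_erase (hf s hsA))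
          have e1 : ((A ∪ A').erase s).erase (f s) = ((A.erase s).erase (f s)) ∪ A' := by
            ext v
            simp only [mem_erase, mem_union]
            constructor
            · rintro ⟨a, b, c | c⟩
              · exact Or.inl ⟨a, b, c⟩
              · exact Or.inr c
            · rintro (⟨a, b, c⟩ | c)
              · exact ⟨a, b, Or.inl c⟩
              · exact ⟨fun h => h2 (h ▸ c), fun h => h1 (h ▸ c), Or.inr c⟩
          rw [e1]
          refine (ih s hsA hSafe' ?_).mono ?_
          · exact disjoint_of_subset_left ((erase_subset _ _).trans (erase_subset _ _)) hd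
          · rintro c ⟨hc | hc, hc'⟩
            · exact Or.inl ⟨hc, hc'⟩
            · exact Or.inr hc
        · rw [if_neg hsA]
          have hsA' : s ∈ A' := (mem_union.1 hs).resolve_left hsA
          have h2 : f' s ∉ A := fun h => disjoint_left.1 hd h (mem_of_mem_erase (hf' s hsA'))
          have e1 : ((A ∪ A').erase s).erase (f' s) = A ∪ ((A'.erase s).erase (f' s)) := by
            ext v
            simp only [mem_erase, mem_union]
            constructor
            · rintro ⟨a, b, c | c⟩
              · exact Or.inl c
              · exact Or.inr ⟨a, b, c⟩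
            · rintro (c | ⟨a, b, c⟩)
              · exact ⟨fun h => h2 (h ▸ c), fun h => hsA (h ▸ c), Or.inl c⟩
              · exact ⟨a, b, Or.inr c⟩
          rw [e1]
          refine (ih' s hsA' ?_).mono ?_
          · exact disjoint_of_subset_right ((erase_subset _ _).trans (erase_subset _ _)) hd
          · rintro c ⟨hc | hc, hc'⟩
            · exact Or.inl hc
            · exact Or.inr ⟨hc, hc'⟩

theorem Safe.empty : Safe (∅ : Finset V) ∅ :=
  Safe.mk (fun _ => rfl) id (fun s hs => absurd hs (notMem_empty s))
    (fun s hs => absurd hs (notMem_empty s))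

theorem Safe.biUnion {ι : Type*} [DecidableEq ι] (J : Finset ι) (A : ι → Finset V)
    (𝒟 : ι → Set (Finset V)) (h : ∀ j ∈ J, Safe (A j) (𝒟 j))
    (hd : ∀ i j, i ≠ j → Disjoint (A i) (A j)) :
    Safe (J.biUnion A) {c | ∃ j ∈ J, c ∈ 𝒟 j} := by
  induction J using Finset.induction_on with
  | empty =>
    rw [biUnion_empty]
    refine Safe.empty.mono ?_
    rintro c ⟨j, hj, _⟩
    exact absurd hj (notMem_empty j)
  | @insert a J ha ih =>
    rw [biUnion_insert]
    refine ((h a (mem_insert_self _ _)).union
      (ih fun j hj => h j (mem_insert_of_mem hj)) ?_).mono ?_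
    · rw [disjoint_biUnion_right]
      intro j hj
      exact hd a j (fun h => ha (h ▸ hj))
    · rintro c ⟨j, hj, hc⟩
      rcases mem_insert.1 hj with rfl | hj
      · exact Or.inl hc
      · exact Or.inr ⟨j, hj, hc⟩

theorem Safe.map {U : Type*} [DecidableEq U] (φ : U ↪ V) {A : Finset U} {𝒟 : Set (Finset U)}
    (h : Safe A 𝒟) : Safe (A.map φ) {c | ∃ d ∈ 𝒟, c = d.map φ} := by
  classical
  induction h with
  | @mk A 𝒟 h0 f hf h ih =>
    refine Safe.mk (fun hA => ?_)
      (fun s => if h : ∃ e, φ e = s then φ (f h.choose) else s) ?_ ?_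
    · rw [map_eq_empty] at hA
      rw [h0 hA]
      ext c
      simp
    · intro s hs
      rw [mem_map] at hs
      obtain ⟨e, he, rfl⟩ := hs
      have hex : ∃ e', φ e' = φ e := ⟨e, rfl⟩
      have hch : hex.choose = e := φ.injective hex.choose_spec
      rw [dif_pos hex, hch, ← map_erase]
      exact mem_map_of_mem _ (hf e he)
    · intro s hs
      rw [mem_map] at hs
      obtain ⟨e, he, rfl⟩ := hs
      have hex : ∃ e', φ e' = φ e := ⟨e, rfl⟩
      have hch : hex.choose = e := φ.injective hex.choose_spec
      rw [dif_pos hex, hch, ← map_erase, ← map_erase]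
      refine (ih e he).mono ?_
      rintro c ⟨⟨d, hd, rfl⟩, hc'⟩
      exact ⟨d, ⟨hd, fun h => hc' (mem_map_of_mem _ h)⟩, rfl⟩

/-- Two free vertices: if Staller takes one, Dominator takes the other. -/
theorem Safe.pair {a b : V} (hab : a ≠ b) :
    Safe ({a, b} : Finset V) {c | a ∈ c ∧ b ∈ c} := by
  classical
  refine Safe.mk (fun h => ?_) (fun s => if s = a then b else a) ?_ ?_
  · simp at h
  · intro s hs
    rw [mem_insert, mem_singleton] at hs
    rcases hs with rfl | rfl
    · simp [hab.symm]
    · simp [hab, hab.symm]
  · intro s hs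
    rw [mem_insert, mem_singleton] at hs
    have key : Safe (∅ : Finset V) ∅ := Safe.empty
    rcases hs with rfl | rfl
    · have e1 : (({s, b} : Finset V).erase s).erase (if s = s then b else s) = ∅ := by
        ext v
        simp
        tauto
      have e2 : {c : Finset V | c ∈ {c : Finset V | s ∈ c ∧ b ∈ c} ∧
          (if s = s then b else s) ∉ c} = ∅ := by
        ext c
        simp
      rw [e1, e2]
      exact key
    · have e1 : (({a, s} : Finset V).erase s).erase (if s = a then s else a) = ∅ := by
        ext v
        simp [hab.symm]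
        tauto
      have e2 : {c : Finset V | c ∈ {c : Finset V | a ∈ c ∧ s ∈ c} ∧
          (if s = a then s else a) ∉ c} = ∅ := by
        ext c
        simp [hab.symm]
        tauto
      rw [e1, e2]
      exact key

theorem Safe.winsS {G : SimpleGraph V} {A : Finset V} {𝒟 : Set (Finset V)} (h : Safe A 𝒟) :
    ∀ (k : ℕ) (D S : Finset V), (∀ v, v ∈ A ↔ v ∉ D ∪ S) →
      (∀ v, (v ∈ D ∨ ∃ u ∈ D, G.Adj u v) ∨ ∃ c ∈ 𝒟, ∀ u ∈ c, u = v ∨ G.Adj u v) →
      A.card ≤ 2 * k → WinsS G k D S := by
  induction h with
  | @mk A 𝒟 h0 f hf h ih =>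
    intro k D S hA hD hk
    by_cases hdom : Dominating G D
    · exact Or.inl hdom
    · right
      have hne : A.Nonempty := by
        rw [nonempty_iff_ne_empty]
        intro hA'
        apply hdom
        intro v
        rcases hD v with h' | ⟨c, hc, _⟩
        · exact h'
        · rw [h0 hA'] at hc
          exact absurd hc (Set.notMem_empty c)
      obtain ⟨w0, hw0⟩ := hne
      refine ⟨⟨w0, (hA w0).1 hw0⟩, fun w hw => ?_⟩
      have hwA : w ∈ A := (hA w).2 hw
      have hfw := hf w hwA
      have h6 := card_erase_add_one hwA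
      have h7 := card_erase_add_one hfw
      cases k with
      | zero => omega
      | succ k =>
        rw [wins_succ]
        right
        refine ⟨f w, ?_, ?_⟩
        · have h8 := (hA (f w)).1 (mem_of_mem_erase hfw)
          have h9 := ne_of_mem_erase hfw
          simp only [mem_union, mem_insert, not_or] at h8 ⊢
          exact ⟨h8.1, h9, h8.2⟩
        · refine ih w hwA k (insert (f w) D) (insert w S) ?_ ?_ ?_
          · intro v
            simp only [mem_erase, hA v, mem_union, mem_insert]
            tauto
          · intro v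
            rcases hD v with h' | ⟨c, hc, hc'⟩
            · left
              rcases h' with h' | ⟨u, hu, huv⟩
              · exact Or.inl (mem_insert_of_mem h')
              · exact Or.inr ⟨u, mem_insert_of_mem hu, huv⟩
            · by_cases hfc : f w ∈ c
              · left
                rcases hc' (f w) hfc with h' | h'
                · left
                  rw [← h']
                  exact mem_insert_self _ _
                · exact Or.inr ⟨f w, mem_insert_self _ _, h'⟩
              · exact Or.inr ⟨c, ⟨hc, hfc⟩, hc'⟩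
          · omega

end Pool.Agent.MP374a5d
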