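import Pool.Agent.Lib.MP_374a5d_co.Game

section

/-!
# The local graph on 15 vertices and its certificates

Sets of vertices of the local graph are written as bit masks. The vertex `14` is the vertex `x`
that is shared by the pieces.
-/

namespace Pool.Agent.MP374a5d

open Finset

/-- The closed neighbourhoods of the 15 vertices of the local graph, as bit masks. -/
def nbL : List ℕ :=
  [1121, 4482, 5636, 3080, 6160, 8225, 8257, 8322, 16642, 8708, 1037, 2072, 4118, 8928, 16640]

/-- Winning sets of Staller: entries `(W, Y, s)`: owning `Y` and to move, Staller wins inside `W` by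
moving first at `s`. -/
def swFacts : List (ℕ × ℕ × ℕ) :=
  [(64, 5415, 6), (8, 5383, 3), (512, 5382, 9), (1, 5132, 0), (32, 8213, 5), (64, 8213, 6), (128,
    4358, 7), (128, 8214, 7), (1024, 29, 10), (2048, 29, 11), (2048, 5132, 11), (4096, 8214,
    12), (16384, 4358, 14), (2, 4116, 1), (8, 2068, 3), (16, 4102, 4), (32, 8197, 5), (64,
    8197, 6), (97, 8212, 0), (512, 5124, 9), (1024, 4612, 10), (2048, 4116, 11), (2057, 5124,
    3), (3080, 21, 3), (4096, 2068, 12), (4226, 8212, 1), (8192, 4612, 13), (8288, 21, 13),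
    (16768, 4102, 8), (97, 8196, 0), (512, 8196, 9), (2066, 4100, 4), (3593, 4100, 10), (6146,
    20, 12), (6152, 20, 11), (9728, 4100, 9), (11369, 20, 0), (12515, 20, 13), (16786, 4100,
    1), (8801, 4, 13), (15611, 4, 4), (15890, 4, 12), (24475, 4, 12), (32767, 0, 2)]

/-- A line of forcing moves of Staller with the only answers. -/
def forcLine : List (ℕ × ℕ) :=
  [(2, 13), (12, 11), (1, 4), (8, 7), (10, 9), (0, 3), (5, 6)]

/-- Positions with Staller to move that are safe for Dominator: free vertices, vertices that are not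
yet dominated, and a pairing (if there is one). -/
def safeFacts : List (ℕ × ℕ × List (ℕ × ℕ)) :=
  [(8190, 7199, [(5, 6), (3, 10), (4, 11), (1, 7), (2, 12), (8, 9)]), (8189, 7199, [(7, 8), (3,
    10), (4, 11), (2, 12), (0, 5), (6, 9)]), (8184, 3101, [(3, 10), (5, 6), (9, 12), (4, 11),
    (7, 8)]), (8184, 6174, [(4, 12), (7, 8), (9, 10), (3, 11), (5, 6)]), (7155, 6162, [(4, 11),
    (1, 12), (0, 5), (6, 7), (8, 9)]), (6123, 5127, [(1, 12), (9, 10), (0, 3), (5, 6), (7,
    8)]), (8154, 6174, [(9, 10), (3, 11), (4, 12), (1, 7), (6, 8)]), (8122, 6174, [(9, 10), (3,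
    11), (4, 12), (1, 7), (5, 8)]), (8058, 6174, [(1, 8), (9, 10), (3, 11), (4, 12), (5, 6)]),
    (7930, 6174, [(1, 7), (9, 10), (3, 11), (4, 12), (5, 6)]), (6651, 6162, [(4, 11), (1, 12),
    (0, 3), (5, 6), (7, 8)]), (5115, 5127, [(9, 12), (0, 3), (5, 6), (1, 4), (7, 8)]), (6131,
    4119, [(4, 12), (9, 10), (0, 5), (1, 7), (6, 8)]), (2043, 5127, [(9, 10), (1, 4), (7, 8),
    (0, 3), (5, 6)]), (8187, 7199, []), (6134, 5127, [(2, 10), (5, 6), (1, 7), (4, 12), (8,
    9)]), (6133, 5127, [(7, 8), (0, 2), (4, 12), (5, 6), (9, 10)]), (6131, 5127, [(0, 10), (9,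
    12), (1, 4), (7, 8), (5, 6)]), (14310, 12934, [(1, 7), (9, 13), (2, 12), (5, 6), (8, 10)]),
    (14294, 12934, [(1, 7), (2, 9), (4, 12), (6, 13), (8, 10)]), (14262, 12934, [(1, 7), (2,
    9), (4, 12), (5, 13), (8, 10)]), (6007, 5127, [(1, 8), (0, 2), (5, 6), (9, 10), (4, 12)]),
    (14070, 12934, [(1, 7), (2, 9), (4, 12), (5, 6), (10, 13)]), (13811, 8419, [(0, 5), (6,
    13), (1, 7), (4, 8), (10, 12)]), (13302, 12934, [(2, 9), (1, 7), (4, 12), (5, 6), (8,
    13)]), (10227, 8419, [(1, 7), (0, 5), (6, 13), (4, 8), (9, 10)]), (6134, 12934, [(1, 7),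
    (2, 9), (4, 12), (5, 6), (8, 10)]), (14327, 14055, []), (4078, 3081, [(3, 11), (5, 6), (2,
    10), (1, 7), (8, 9)]), (12268, 10888, [(7, 13), (3, 11), (2, 9), (5, 6), (8, 10)]), (12266,
    10888, [(9, 13), (3, 11), (1, 7), (5, 6), (8, 10)]), (2022, 1025, [(2, 10), (5, 6), (1, 7),
    (8, 9)]), (10212, 8832, [(7, 13), (2, 9), (5, 6), (8, 10)]), (10210, 8832, [(9, 13), (1,
    7), (5, 6), (8, 10)]), (10182, 8832, [(1, 7), (2, 9), (6, 13), (8, 10)]), (10150, 8832,
    [(1, 7), (2, 9), (5, 13), (8, 10)]), (10086, 8832, [(1, 13), (2, 9), (5, 6), (8, 10)]),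
    (9958, 8832, [(1, 7), (2, 9), (5, 6), (10, 13)]), (9702, 8832, [(2, 13), (1, 7), (5, 6),
    (8, 10)]), (9190, 8832, [(1, 7), (2, 9), (5, 6), (8, 13)]), (2022, 8832, [(1, 7), (2, 9),
    (5, 6), (8, 10)]), (10215, 9953, []), (12238, 10888, [(3, 11), (1, 7), (2, 9), (6, 13), (8,
    10)]), (12206, 10888, [(3, 11), (1, 7), (2, 9), (5, 13), (8, 10)]), (12142, 10888, [(1,
    13), (3, 11), (2, 9), (5, 6), (8, 10)]), (12014, 10888, [(3, 11), (1, 7), (2, 9), (5, 6),
    (10, 13)]), (11758, 10888, [(2, 13), (3, 11), (1, 7), (5, 6), (8, 10)]), (11246, 10888,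
    [(3, 11), (1, 7), (2, 9), (5, 6), (8, 13)]), (10215, 8929, [(0, 5), (6, 13), (1, 7), (2,
    9), (8, 10)]), (4078, 10888, [(1, 7), (2, 9), (3, 11), (5, 6), (8, 10)]), (12271, 12009,
    []), (16350, 15006, [(3, 10), (4, 11), (1, 7), (9, 13), (2, 12), (6, 8)]), (16318, 15006,
    [(3, 10), (4, 11), (1, 7), (9, 13), (2, 12), (5, 8)]), (16253, 11901, [(3, 10), (4, 11),
    (0, 5), (6, 13), (2, 9), (8, 12)]), (16126, 15006, [(1, 7), (3, 10), (4, 11), (9, 13), (2,
    12), (5, 6)]), (15867, 10491, [(3, 10), (4, 11), (0, 5), (6, 13), (1, 7), (8, 12)]),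
    (15358, 15006, [(3, 11), (2, 9), (4, 12), (1, 7), (5, 6), (8, 13)]), (14327, 13047, [(4,
    12), (0, 5), (6, 13), (1, 7), (2, 9), (8, 10)]), (12285, 11901, [(4, 11), (2, 9), (3, 10),
    (0, 5), (6, 13), (7, 8)]), (8190, 15006, [(1, 7), (2, 9), (3, 11), (4, 12), (5, 6), (8,
    10)]), (16383, 16127, [])]

/-- The closed neighbourhood of the vertex `v` as a bit mask. -/
def nbm (v : ℕ) : ℕ := nbL.getD v 0

/-- The set of a bit mask. -/
def ms (m : ℕ) : Finset (Fin 15) := univ.filter (fun i => m.testBit i.val = true)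

theorem mem_ms {m : ℕ} {i : Fin 15} : i ∈ ms m ↔ m.testBit i.val = true := by
  simp [ms]

/-- The closed neighbourhoods of the vertices other than `14`. -/
def clL : Set (Finset (Fin 15)) := {c | ∃ v : ℕ, v < 14 ∧ c = ms (nbm v)}

/-- The closed neighbourhoods of the vertices (other than `14`) of a bit mask. -/
def dL (C : ℕ) : Set (Finset (Fin 15)) :=
  {c | ∃ v : ℕ, v < 14 ∧ C.testBit v = true ∧ c = ms (nbm v)}

theorem ms_or_pow (Y s : ℕ) (hs : s < 15) : ms (Y ||| 2 ^ s) = insert ⟨s, hs⟩ (ms Y) := by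
  ext i
  simp only [mem_ms, mem_insert, Nat.testBit_or, Nat.testBit_two_pow, Bool.or_eq_true,
    decide_eq_true_eq, Fin.ext_iff]
  constructor
  · rintro (h | h)
    · exact Or.inr h
    · exact Or.inl h.symm
  · rintro (h | h)
    · exact Or.inr h.symm
    · exact Or.inl h

theorem ms_xor_pow (Y s : ℕ) (hs : s < 15) (h : Y.testBit s = true) :
    ms (Y ^^^ 2 ^ s) = (ms Y).erase ⟨s, hs⟩ := by
  ext i
  simp only [mem_ms, mem_erase, Nat.testBit_xor, Nat.testBit_two_pow, ne_eq, Fin.ext_iff]
  by_cases hi : s = i.val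
  · subst hi
    simp [h]
  · have : ¬ i.val = s := fun h => hi h.symm
    simp [hi, this]

theorem ms_subset_of_and {a b : ℕ} (h : (a &&& b) = a) : ms a ⊆ ms b := by
  intro i hi
  rw [mem_ms] at hi ⊢
  rw [← h, Nat.testBit_and, Bool.and_eq_true] at hi
  exact hi.2

/-- The check that some entry `g` of the list `L` is a winning set for Staller owning `Y`, inside
`F` and without `s` and `d`. -/
def hasW (L : List (ℕ × ℕ)) (F Y s d : ℕ) : Bool :=
  L.any (fun g => (g.2 == Y) && ((g.1 &&& F) == g.1) && !(g.1.testBit s) && !(g.1.testBit d))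

theorem hasW_spec {L : List (ℕ × ℕ)} (hL : ∀ g ∈ L, SW clL (ms g.1) (ms g.2)) {F Y s d : ℕ}
    (hs : s < 15) (hd : d < 15) (h : hasW L F Y s d = true) :
    ∃ W : Finset (Fin 15), W ⊆ (ms F).erase ⟨s, hs⟩ ∧ (⟨d, hd⟩ : Fin 15) ∉ W ∧
      SW clL W (ms Y) := by
  rw [hasW, List.any_eq_true] at h
  obtain ⟨g, hg, h⟩ := h
  simp only [Bool.and_eq_true, beq_iff_eq, Bool.not_eq_true'] at h
  obtain ⟨⟨⟨h1, h2⟩, h3⟩, h4⟩ := h
  refine ⟨ms g.1, ?_, ?_, ?_⟩
  · intro i hi
    rw [mem_erase]
    refine ⟨?_, ms_subset_of_and h2 hi⟩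
    rintro rfl
    rw [mem_ms, h3] at hi
    exact Bool.noConfusion hi
  · rw [mem_ms, h4]
    exact Bool.noConfusion
  · rw [← h1]
    exact hL g hg

/-- The check of one winning set: an entry `(W, Y, s)`. -/
def okFact (L : List (ℕ × ℕ)) (f : ℕ × ℕ × ℕ) : Bool :=
  f.1.testBit f.2.2 && decide (f.2.2 < 15) &&
  ((List.range 14).any (fun v => (nbm v &&& (f.2.1 ||| 2 ^ f.2.2)) == nbm v) ||
    (List.range 15).all (fun d => hasW L f.1 (f.2.1 ||| 2 ^ f.2.2) f.2.2 d))

theorem okFact_spec {L : List (ℕ × ℕ)} (hL : ∀ g ∈ L, SW clL (ms g.1) (ms g.2))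
    {f : ℕ × ℕ × ℕ} (h : okFact L f = true) : SW clL (ms f.1) (ms f.2.1) := by
  rw [okFact, Bool.and_eq_true, Bool.and_eq_true, decide_eq_true_eq] at h
  obtain ⟨⟨h1, hs⟩, h2⟩ := h
  have hmem : (⟨f.2.2, hs⟩ : Fin 15) ∈ ms f.1 := mem_ms.2 h1
  rw [Bool.or_eq_true] at h2
  rcases h2 with h2 | h2
  · rw [List.any_eq_true] at h2
    obtain ⟨v, hv, h2⟩ := h2
    rw [List.mem_range] at hv
    rw [beq_iff_eq] at h2
    refine SW.move hmem (fun _ => ∅) (fun _ => empty_subset _) (fun _ => notMem_empty _)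
      (fun _ => SW.win (c := ms (nbm v)) ⟨v, hv, rfl⟩ ?_)
    rw [← ms_or_pow]
    exact ms_subset_of_and h2
  · rw [List.all_eq_true] at h2
    have h3 : ∀ d : Fin 15, ∃ W : Finset (Fin 15), W ⊆ (ms f.1).erase ⟨f.2.2, hs⟩ ∧ d ∉ W ∧
        SW clL W (insert ⟨f.2.2, hs⟩ (ms f.2.1)) := by
      intro d
      have := hasW_spec hL hs d.2 (h2 d.val (List.mem_range.2 d.2))
      rw [ms_or_pow _ _ hs] at this
      exact this
    choose g hg1 hg2 hg3 using h3
    exact SW.move hmem g hg1 hg2 hg3

/-- The check of a list of winning sets, each of them by means of the earlier ones. -/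
def okFacts : List (ℕ × ℕ × ℕ) → List (ℕ × ℕ) → Bool
  | [], _ => true
  | f :: l, L => okFact L f && okFacts l ((f.1, f.2.1) :: L)

theorem okFacts_spec : ∀ (l : List (ℕ × ℕ × ℕ)) (L : List (ℕ × ℕ)),
    (∀ g ∈ L, SW clL (ms g.1) (ms g.2)) → okFacts l L = true →
    ∀ f ∈ l, SW clL (ms f.1) (ms f.2.1) := by
  intro l
  induction l with
  | nil => intro L _ _ f hf; simp at hf
  | cons f l ih =>
    intro L hL h g hg
    rw [okFacts, Bool.and_eq_true] at h
    have hf := okFact_spec hL h.1
    rcases List.mem_cons.1 hg with rfl | hg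
    · exact hf
    · refine ih _ ?_ h.2 g hg
      intro g' hg'
      rcases List.mem_cons.1 hg' with rfl | hg'
      · exact hf
      · exact hL g' hg'

/-- The check of a line of forcing moves and answers. -/
def okLine (L : List (ℕ × ℕ)) : List (ℕ × ℕ) → ℕ → ℕ → Bool
  | [], F, _ => F == 0
  | p :: l, F, Y =>
    F.testBit p.1 && F.testBit p.2 && (p.1 != p.2) && decide (p.1 < 15) && decide (p.2 < 15) &&
      (List.range 15).all (fun d => d == p.2 || hasW L F (Y ||| 2 ^ p.1) p.1 d) &&
      okLine L l ((F ^^^ 2 ^ p.1) ^^^ 2 ^ p.2) (Y ||| 2 ^ p.1)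

theorem ms_zero : ms 0 = ∅ := by
  ext i
  simp [mem_ms]

theorem ms_xor_xor {F s r : ℕ} (hs : s < 15) (hr : r < 15) (h1 : F.testBit s = true)
    (h2 : F.testBit r = true) (hsr : s ≠ r) :
    ms ((F ^^^ 2 ^ s) ^^^ 2 ^ r) = ((ms F).erase ⟨s, hs⟩).erase ⟨r, hr⟩ := by
  rw [ms_xor_pow _ r hr, ms_xor_pow _ s hs h1]
  rw [Nat.testBit_xor, h2, Nat.testBit_two_pow]
  simp [hsr]

theorem okLine_spec {L : List (ℕ × ℕ)} (hL : ∀ g ∈ L, SW clL (ms g.1) (ms g.2)) :
    ∀ (l : List (ℕ × ℕ)) (F Y : ℕ), okLine L l F Y = true → Forc clL (ms F) (ms Y) := by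
  intro l
  induction l with
  | nil =>
    intro F Y h
    rw [okLine, beq_iff_eq] at h
    rw [h, ms_zero]
    exact Forc.nil
  | cons p l ih =>
    intro F Y h
    rw [okLine] at h
    simp only [Bool.and_eq_true, decide_eq_true_eq, bne_iff_ne, ne_eq] at h
    obtain ⟨⟨⟨⟨⟨⟨h1, h2⟩, hsr⟩, hs⟩, hr⟩, h3⟩, h4⟩ := h
    have ih' := ih _ _ h4
    rw [ms_xor_xor hs hr h1 h2 hsr, ms_or_pow _ _ hs] at ih'
    rw [List.all_eq_true] at h3
    have h5 : ∀ d : Fin 15, ∃ W : Finset (Fin 15), d ≠ ⟨p.2, hr⟩ →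
        (W ⊆ (ms F).erase ⟨p.1, hs⟩ ∧ d ∉ W ∧ SW clL W (insert ⟨p.1, hs⟩ (ms Y))) := by
      intro d
      by_cases hd : d = ⟨p.2, hr⟩
      · exact ⟨∅, fun h => absurd hd h⟩
      · have h6 := h3 d.val (List.mem_range.2 d.2)
        rw [Bool.or_eq_true, beq_iff_eq] at h6
        rcases h6 with h6 | h6
        · exact absurd (Fin.ext h6) hd
        · have := hasW_spec hL hs d.2 h6
          rw [ms_or_pow _ _ hs] at this
          obtain ⟨W, hW⟩ := this
          exact ⟨W, fun _ => hW⟩
    choose f hf using h5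
    refine Forc.step (s := ⟨p.1, hs⟩) (r := ⟨p.2, hr⟩) (mem_ms.2 h1) ?_ f
      (fun d hd => (hf d hd).1) (fun d hd => (hf d hd).2.1) (fun d hd => (hf d hd).2.2) ih'
    rw [mem_erase]
    refine ⟨?_, mem_ms.2 h2⟩
    intro h
    exact hsr (Fin.ext_iff.1 h).symm

/-! ### Dominator -/

/-- The check of a pairing of the free vertices. -/
def okPair : List (ℕ × ℕ) → ℕ → ℕ → Bool
  | [], A, C => A == 0 && C == 0
  | p :: l, A, C =>
    A.testBit p.1 && A.testBit p.2 && (p.1 != p.2) && decide (p.1 < 15) && decide (p.2 < 15) &&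
      okPair l ((A ^^^ 2 ^ p.1) ^^^ 2 ^ p.2) (C ^^^ (C &&& (nbm p.1 &&& nbm p.2)))

/-- The check of a position by one answer to every move of Staller. -/
def okNode (L : List (ℕ × ℕ)) (A C : ℕ) : Bool :=
  (A &&& (2 ^ 15 - 1) != 0) && (List.range 15).all (fun s => !(A.testBit s) ||
    (List.range 15).any (fun r => (s != r) && A.testBit r &&
      L.any (fun g => (g.1 == ((A ^^^ 2 ^ s) ^^^ 2 ^ r)) &&
        (((C ^^^ (C &&& nbm r)) &&& g.2) == (C ^^^ (C &&& nbm r))))))

theorem nbm_symm : ∀ u v : Fin 15, (nbm u.val).testBit v.val = (nbm v.val).testBit u.val := by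
  decide

theorem testBit_diff (C X v : ℕ) :
    (C ^^^ (C &&& X)).testBit v = (C.testBit v && !(X.testBit v)) := by
  rw [Nat.testBit_xor, Nat.testBit_and]
  cases C.testBit v <;> cases X.testBit v <;> rfl

theorem dL_subset_of_and {a b : ℕ} (h : (a &&& b) = a) : dL a ⊆ dL b := by
  rintro c ⟨v, hv, ha, hc⟩
  refine ⟨v, hv, ?_, hc⟩
  rw [← h, Nat.testBit_and, Bool.and_eq_true] at ha
  exact ha.2

theorem okPair_spec : ∀ (l : List (ℕ × ℕ)) (A C : ℕ), okPair l A C = true →
    Safe (ms A) (dL C) := by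
  intro l
  induction l with
  | nil =>
    intro A C h
    rw [okPair, Bool.and_eq_true, beq_iff_eq, beq_iff_eq] at h
    rw [h.1, h.2, ms_zero]
    refine Safe.empty.mono ?_
    rintro c ⟨v, _, hv, _⟩
    simp at hv
  | cons p l ih =>
    intro A C h
    rw [okPair] at h
    simp only [Bool.and_eq_true, decide_eq_true_eq, bne_iff_ne, ne_eq] at h
    obtain ⟨⟨⟨⟨⟨h1, h2⟩, hsr⟩, hs⟩, hr⟩, h4⟩ := h
    have ih' := ih _ _ h4
    rw [ms_xor_xor hs hr h1 h2 hsr] at ih'
    have hab : (⟨p.1, hs⟩ : Fin 15) ≠ ⟨p.2, hr⟩ := fun h => hsr (Fin.ext_iff.1 h)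
    have hd : Disjoint ({⟨p.1, hs⟩, ⟨p.2, hr⟩} : Finset (Fin 15))
        (((ms A).erase ⟨p.1, hs⟩).erase ⟨p.2, hr⟩) := by
      rw [disjoint_left]
      intro v hv hv'
      rw [mem_insert, mem_singleton] at hv
      rw [mem_erase, mem_erase] at hv'
      tauto
    have hu := (Safe.pair hab).union ih' hd
    have e1 : ({⟨p.1, hs⟩, ⟨p.2, hr⟩} : Finset (Fin 15)) ∪
        (((ms A).erase ⟨p.1, hs⟩).erase ⟨p.2, hr⟩) = ms A := by
      ext v
      simp only [mem_union, mem_insert, mem_singleton, mem_erase]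
      constructor
      · rintro ((rfl | rfl) | h)
        · exact mem_ms.2 h1
        · exact mem_ms.2 h2
        · exact h.2.2
      · intro h
        tauto
    rw [e1] at hu
    refine hu.mono ?_
    rintro c ⟨v, hv, hC, rfl⟩
    by_cases hb : (nbm p.1 &&& nbm p.2).testBit v = true
    · left
      rw [Nat.testBit_and, Bool.and_eq_true] at hb
      constructor
      · rw [mem_ms]
        have := nbm_symm ⟨p.1, hs⟩ ⟨v, by omega⟩
        rw [← this]
        exact hb.1
      · rw [mem_ms]
        have := nbm_symm ⟨p.2, hr⟩ ⟨v, by omega⟩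
        rw [← this]
        exact hb.2
    · right
      refine ⟨v, hv, ?_, rfl⟩
      rw [testBit_diff, hC]
      simp only [Bool.not_eq_true] at hb
      rw [hb]
      rfl

theorem okNode_spec {L : List (ℕ × ℕ)} (hL : ∀ g ∈ L, Safe (ms g.1) (dL g.2)) {A C : ℕ}
    (h : okNode L A C = true) : Safe (ms A) (dL C) := by
  rw [okNode, Bool.and_eq_true, bne_iff_ne, List.all_eq_true] at h
  obtain ⟨h0, h⟩ := h
  have h1 : ∀ s : Fin 15, ∃ r : Fin 15, s ∈ ms A → (r ∈ (ms A).erase s ∧
      Safe (((ms A).erase s).erase r) {c | c ∈ dL C ∧ r ∉ c}) := by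
    intro s
    by_cases hs : s ∈ ms A
    · have h2 := h s.val (List.mem_range.2 s.2)
      rw [mem_ms] at hs
      rw [hs, Bool.not_true, Bool.false_or, List.any_eq_true] at h2
      obtain ⟨r, hr, h2⟩ := h2
      rw [List.mem_range] at hr
      rw [Bool.and_eq_true, Bool.and_eq_true, bne_iff_ne, List.any_eq_true] at h2
      obtain ⟨⟨hsr, hrA⟩, g, hg, h2⟩ := h2
      rw [Bool.and_eq_true, beq_iff_eq, beq_iff_eq] at h2
      refine ⟨⟨r, hr⟩, fun _ => ⟨?_, ?_⟩⟩
      · rw [mem_erase]
        exact ⟨fun h => hsr (Fin.ext_iff.1 h).symm, mem_ms.2 hrA⟩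
      · have h3 := hL g hg
        rw [h2.1, ms_xor_xor s.2 hr hs hrA hsr] at h3
        refine h3.mono ?_
        rintro c ⟨⟨v, hv, hC, rfl⟩, hrc⟩
        refine dL_subset_of_and h2.2 ⟨v, hv, ?_, rfl⟩
        rw [testBit_diff, hC]
        have := nbm_symm ⟨r, hr⟩ ⟨v, by omega⟩
        simp only at this
        rw [this]
        rw [mem_ms] at hrc
        simp only [Bool.not_eq_true] at hrc
        simp only [hrc]
        rfl
    · exact ⟨s, fun h => absurd h hs⟩
  choose f hf using h1
  refine Safe.mk ?_ f (fun s hs => (hf s hs).1) (fun s hs => (hf s hs).2)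
  intro hA
  exfalso
  apply h0
  apply Nat.eq_of_testBit_eq
  intro i
  rw [Nat.testBit_and, Nat.testBit_two_pow_sub_one, Nat.zero_testBit]
  by_cases hi : i < 15
  · have : (⟨i, hi⟩ : Fin 15) ∉ ms A := by rw [hA]; exact notMem_empty _
    rw [mem_ms, Bool.not_eq_true] at this
    simp only at this
    rw [this]
    rfl
  · simp [hi]

/-- The check of a list of safe positions, each of them by a pairing or by the earlier ones. -/
def okSafe : List (ℕ × ℕ × List (ℕ × ℕ)) → List (ℕ × ℕ) → Bool
  | [], _ => true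
  | f :: l, L => (okPair f.2.2 f.1 f.2.1 || okNode L f.1 f.2.1) &&
      okSafe l ((f.1, f.2.1) :: L)

theorem okSafe_spec : ∀ (l : List (ℕ × ℕ × List (ℕ × ℕ))) (L : List (ℕ × ℕ)),
    (∀ g ∈ L, Safe (ms g.1) (dL g.2)) → okSafe l L = true →
    ∀ f ∈ l, Safe (ms f.1) (dL f.2.1) := by
  intro l
  induction l with
  | nil => intro L _ _ f hf; simp at hf
  | cons f l ih =>
    intro L hL h g hg
    rw [okSafe, Bool.and_eq_true, Bool.or_eq_true] at h
    have hf : Safe (ms f.1) (dL f.2.1) := by
      rcases h.1 with h' | h'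
      · exact okPair_spec _ _ _ h'
      · exact okNode_spec hL h'
    rcases List.mem_cons.1 hg with rfl | hg
    · exact hf
    · refine ih _ ?_ h.2 g hg
      intro g' hg'
      rcases List.mem_cons.1 hg' with rfl | hg'
      · exact hf
      · exact hL g' hg'

/-! ### The three facts about the local graph -/

theorem swFacts_ok : okFacts swFacts [] = true := by decide +kernel

theorem sw_all : ∀ g ∈ swFacts.map (fun f => (f.1, f.2.1)), SW clL (ms g.1) (ms g.2) := by
  intro g hg
  rw [List.mem_map] at hg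
  obtain ⟨f, hf, rfl⟩ := hg
  exact okFacts_spec swFacts [] (fun g hg => absurd hg List.not_mem_nil) swFacts_ok f hf

theorem line_ok : okLine (swFacts.map (fun f => (f.1, f.2.1))) forcLine (2 ^ 14 - 1) 0 = true := by
  decide +kernel

theorem safe_ok : okSafe safeFacts [] = true := by decide +kernel

theorem univ_mem : ((2 ^ 15 - 1, 0) : ℕ × ℕ) ∈ swFacts.map (fun f => (f.1, f.2.1)) := by
  decide +kernel

/-- Staller, to move on the empty board of the local graph, can force to own the closed
neighbourhood of a vertex other than `14`. -/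
theorem sw_local : SW clL (ms (2 ^ 15 - 1)) ∅ := by
  have := sw_all _ univ_mem
  rw [ms_zero] at this
  exact this

/-- Without the vertex `14`, Staller has a line of forcing moves that exhausts the board. -/
theorem forc_local : Forc clL (ms (2 ^ 14 - 1)) ∅ := by
  have := okLine_spec sw_all forcLine _ _ line_ok
  rw [ms_zero] at this
  exact this

/-- Without the vertex `14`, Dominator as the second player hits the closed neighbourhoods of all
the vertices other than `8` and `14`. -/
theorem safe_local : Safe (ms (2 ^ 14 - 1)) (dL (2 ^ 14 - 1 - 2 ^ 8)) := by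
  have h : ∃ f ∈ safeFacts, f.1 = 2 ^ 14 - 1 ∧ f.2.1 = 2 ^ 14 - 1 - 2 ^ 8 := by decide +kernel
  obtain ⟨f, hf, h1, h2⟩ := h
  have := okSafe_spec safeFacts [] (fun g hg => absurd hg List.not_mem_nil) safe_ok f hf
  rw [h1, h2] at this
  exact this

end Pool.Agent.MP374a5d
end

section

/-!
# The glued graph

Two copies of the local graph share the vertex `14` (called `x` and written `none`), and `m`
further pairs of vertices hang on `x`.
-/

namespace Pool.Agent.MP374a5d

open Finset

/-- The vertices: `x`, two copies of `Fin 14`, and `m` pairs. -/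
abbrev Vx (m : ℕ) := Option ((Bool × Fin 14) ⊕ (Fin m × Bool))

/-- Adjacency in the graph on `Fin 14`. -/
def kadj (i j : Fin 14) : Prop := i ≠ j ∧ (nbm i.val).testBit j.val = true

instance : DecidableRel kadj := fun i j => by unfold kadj; infer_instance

theorem kadj_symm : ∀ i j : Fin 14, kadj i j → kadj j i := by decide

/-- Adjacency in the glued graph. -/
def adj {m : ℕ} : Vx m → Vx m → Prop
  | none, none => False
  | none, some (Sum.inl p) => p.2 = 8
  | none, some (Sum.inr p) => p.2 = false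
  | some (Sum.inl p), none => p.2 = 8
  | some (Sum.inr p), none => p.2 = false
  | some (Sum.inl p), some (Sum.inl q) => p.1 = q.1 ∧ kadj p.2 q.2
  | some (Sum.inr p), some (Sum.inr q) => p.1 = q.1 ∧ p.2 ≠ q.2
  | some (Sum.inl _), some (Sum.inr _) => False
  | some (Sum.inr _), some (Sum.inl _) => False

/-- The glued graph. -/
def gl (m : ℕ) : SimpleGraph (Vx m) where
  Adj := adj
  symm := ⟨by
    rintro (_ | p | p) (_ | q | q) h
    · exact h
    · exact h
    · exact h
    · exact h
    · exact ⟨h.1.symm, kadj_symm _ _ h.2⟩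
    · exact h
    · exact h
    · exact h
    · exact ⟨h.1.symm, h.2.symm⟩⟩
  loopless := ⟨by
    rintro (_ | p | p) h
    · exact h
    · exact h.2.1 rfl
    · exact h.2 rfl⟩

/-- The copy number `c` of the local graph. -/
def emb (m : ℕ) (c : Bool) : Fin 15 ↪ Vx m where
  toFun i := if h : i.val < 14 then some (Sum.inl (c, ⟨i.val, h⟩)) else none
  inj' := by
    intro i j h
    dsimp only at h
    split_ifs at h with h1 h2 h2
    · simp only [Option.some.injEq, Sum.inl.injEq, Prod.mk.injEq, Fin.mk.injEq, true_and] at h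
      exact Fin.ext h
    · apply Fin.ext
      omega

theorem emb_lt {m : ℕ} {c : Bool} {i : Fin 15} (h : i.val < 14) :
    emb m c i = some (Sum.inl (c, ⟨i.val, h⟩)) := by
  show (if h : i.val < 14 then _ else _) = _
  rw [dif_pos h]

theorem emb_last {m : ℕ} {c : Bool} {i : Fin 15} (h : i.val = 14) :
    emb m c i = none := by
  show (if h : i.val < 14 then _ else _) = _
  rw [dif_neg (by omega)]

theorem nb_last : ∀ v : Fin 14, (nbm v.val).testBit 14 = true ↔ v = 8 := by decide

theorem nb_self : ∀ v : Fin 14, (nbm v.val).testBit v.val = true := by decide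

/-- Closed neighbourhoods of the local graph are closed neighbourhoods of the glued graph. -/
theorem mem_map_iff {m : ℕ} {c : Bool} (v : Fin 14) (u : Vx m) :
    u ∈ (ms (nbm v.val)).map (emb m c) ↔
      (u = some (Sum.inl (c, v)) ∨ (gl m).Adj u (some (Sum.inl (c, v)))) := by
  rw [mem_map]
  constructor
  · rintro ⟨i, hi, rfl⟩
    rw [mem_ms] at hi
    by_cases h : i.val < 14
    · rw [emb_lt h]
      by_cases hv : (⟨i.val, h⟩ : Fin 14) = v
      · left
        rw [hv]
      · right
        exact ⟨rfl, kadj_symm _ _ ⟨fun h => hv h.symm, hi⟩⟩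
    · have h14 : i.val = 14 := by omega
      rw [emb_last h14]
      right
      rw [h14] at hi
      exact (nb_last v).1 hi
  · rintro (rfl | h)
    · refine ⟨⟨v.val, by omega⟩, ?_, ?_⟩
      · rw [mem_ms]
        exact nb_self v
      · rw [emb_lt (show (⟨v.val, by omega⟩ : Fin 15).val < 14 from v.2)]
    · rcases u with _ | p | p
      · refine ⟨⟨14, by omega⟩, ?_, ?_⟩
        · rw [mem_ms]
          exact (nb_last v).2 h
        · rw [emb_last rfl]
      · refine ⟨⟨p.2.val, by omega⟩, ?_, ?_⟩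
        · rw [mem_ms]
          exact (kadj_symm _ _ h.2).2
        · rw [emb_lt (show (⟨p.2.val, by omega⟩ : Fin 15).val < 14 from p.2.2)]
          congr 2
          exact Prod.ext h.1.symm rfl
      · exact absurd h id

theorem clL_map {m : ℕ} (c : Bool) : ∀ d ∈ clL, d.map (emb m c) ∈ cl (gl m) := by
  rintro d ⟨v, hv, rfl⟩
  refine ⟨some (Sum.inl (c, ⟨v, hv⟩)), fun u hu => ?_⟩
  exact (mem_map_iff (⟨v, hv⟩ : Fin 14) u).2 (hu.imp_right fun h => h)

/-- The pieces. -/
def piece (m : ℕ) : Bool ⊕ Fin m → Finset (Vx m)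
  | Sum.inl c => (ms (2 ^ 14 - 1)).map (emb m c)
  | Sum.inr j => {some (Sum.inr (j, false)), some (Sum.inr (j, true))}

theorem mem_full : ∀ i : Fin 15, (2 ^ 14 - 1 : ℕ).testBit i.val = true ↔ i.val < 14 := by
  decide

theorem mem_piece_inl {m : ℕ} {c : Bool} {u : Vx m} :
    u ∈ piece m (Sum.inl c) ↔ ∃ i : Fin 14, u = some (Sum.inl (c, i)) := by
  rw [piece, mem_map]
  constructor
  · rintro ⟨i, hi, rfl⟩
    rw [mem_ms, mem_full] at hi
    exact ⟨⟨i.val, hi⟩, emb_lt hi⟩
  · rintro ⟨i, rfl⟩
    refine ⟨⟨i.val, by omega⟩, ?_, ?_⟩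
    · rw [mem_ms, mem_full]
      exact i.2
    · rw [emb_lt (show (⟨i.val, by omega⟩ : Fin 15).val < 14 from i.2)]

theorem mem_piece_inr {m : ℕ} {j : Fin m} {u : Vx m} :
    u ∈ piece m (Sum.inr j) ↔ ∃ b : Bool, u = some (Sum.inr (j, b)) := by
  rw [piece, mem_insert, mem_singleton]
  constructor
  · rintro (rfl | rfl)
    · exact ⟨_, rfl⟩
    · exact ⟨_, rfl⟩
  · rintro ⟨b, rfl⟩
    cases b
    · exact Or.inl rfl
    · exact Or.inr rfl

theorem piece_disjoint {m : ℕ} : ∀ i j : Bool ⊕ Fin m, i ≠ j →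
    Disjoint (piece m i) (piece m j) := by
  rintro (c | j) (c' | j') h
  · rw [disjoint_left]
    intro u hu hu'
    obtain ⟨i, rfl⟩ := mem_piece_inl.1 hu
    obtain ⟨i', hi⟩ := mem_piece_inl.1 hu'
    simp only [Option.some.injEq, Sum.inl.injEq, Prod.mk.injEq] at hi
    exact h (by rw [hi.1])
  · rw [disjoint_left]
    intro u hu hu'
    obtain ⟨i, rfl⟩ := mem_piece_inl.1 hu
    obtain ⟨i', hi⟩ := mem_piece_inr.1 hu'
    simp at hi
  · rw [disjoint_left]
    intro u hu hu'
    obtain ⟨i, rfl⟩ := mem_piece_inr.1 hu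
    obtain ⟨i', hi⟩ := mem_piece_inl.1 hu'
    simp at hi
  · rw [disjoint_left]
    intro u hu hu'
    obtain ⟨i, rfl⟩ := mem_piece_inr.1 hu
    obtain ⟨i', hi⟩ := mem_piece_inr.1 hu'
    simp only [Option.some.injEq, Sum.inr.injEq, Prod.mk.injEq] at hi
    exact h (by rw [hi.1])

theorem mem_union_piece {m : ℕ} (u : Vx m) :
    u ∈ (univ : Finset (Bool ⊕ Fin m)).biUnion (piece m) ↔ u ≠ none := by
  rw [mem_biUnion]
  constructor
  · rintro ⟨i, _, hi⟩
    rcases i with c | j
    · obtain ⟨_, rfl⟩ := mem_piece_inl.1 hi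
      simp
    · obtain ⟨_, rfl⟩ := mem_piece_inr.1 hi
      simp
  · intro h
    rcases u with _ | p | p
    · exact absurd rfl h
    · exact ⟨Sum.inl p.1, mem_univ _, mem_piece_inl.2 ⟨p.2, rfl⟩⟩
    · exact ⟨Sum.inr p.1, mem_univ _, mem_piece_inr.2 ⟨p.2, rfl⟩⟩

theorem union_piece {m : ℕ} :
    (univ : Finset (Bool ⊕ Fin m)).biUnion (piece m) = univ.erase none := by
  ext u
  rw [mem_union_piece, mem_erase]
  simp

theorem card_vx (m : ℕ) : Fintype.card (Vx m) = 29 + 2 * m := by
  simp
  ring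

theorem card_union (m : ℕ) :
    ((univ : Finset (Bool ⊕ Fin m)).biUnion (piece m)).card = 28 + 2 * m := by
  rw [union_piece, card_erase_of_mem (mem_univ _), card_univ, card_vx]
  omega

/-! ### Dominator wins -/

theorem wins_gl (m : ℕ) : Wins (gl m) (15 + m) ∅ ∅ := by
  have e : 15 + m = (14 + m) + 1 := by omega
  rw [e, wins_succ]
  right
  refine ⟨none, by simp, ?_⟩
  have hsafe : ∀ i ∈ (univ : Finset (Bool ⊕ Fin m)), Safe (piece m i)
      (match i with
        | Sum.inl c => {d | ∃ d' ∈ dL (2 ^ 14 - 1 - 2 ^ 8), d = d'.map (emb m c)}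
        | Sum.inr j => {d | some (Sum.inr (j, false)) ∈ d ∧ some (Sum.inr (j, true)) ∈ d}) := by
    rintro (c | j) _
    · exact safe_local.map (emb m c)
    · exact Safe.pair (by simp)
  have h := Safe.biUnion univ (piece m) _ hsafe piece_disjoint
  refine h.winsS (14 + m) _ _ ?_ ?_ ?_
  · intro v
    rw [mem_union_piece]
    simp
  · intro v
    rcases v with _ | p | p
    · left
      left
      simp
    · by_cases h8 : p.2 = 8
      · left
        right
        refine ⟨none, by simp, ?_⟩
        exact h8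
      · right
        refine ⟨(ms (nbm p.2.val)).map (emb m p.1), ⟨Sum.inl p.1, mem_univ _, ?_⟩, ?_⟩
        · refine ⟨ms (nbm p.2.val), ⟨p.2.val, p.2.2, ?_, rfl⟩, rfl⟩
          have : ∀ i : Fin 14, i ≠ 8 → (2 ^ 14 - 1 - 2 ^ 8 : ℕ).testBit i.val = true := by decide
          exact this _ h8
        · intro u hu
          exact (mem_map_iff p.2 u).1 hu
    · rcases p with ⟨j, b⟩
      cases b
      · left
        right
        refine ⟨none, by simp, ?_⟩
        exact rfl
      · right
        refine ⟨{some (Sum.inr (j, false)), some (Sum.inr (j, true))},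
          ⟨Sum.inr j, mem_univ _, ?_⟩, ?_⟩
        · simp
        · intro u hu
          rw [mem_insert, mem_singleton] at hu
          rcases hu with rfl | rfl
          · right
            exact ⟨rfl, by simp⟩
          · exact Or.inl rfl
  · rw [card_union]
    omega

/-! ### Dominator needs all his moves -/

theorem forc_gl (m : ℕ) :
    Forc (cl (gl m)) ((univ : Finset (Bool ⊕ Fin m)).biUnion (piece m)) ∅ := by
  refine Forc.biUnion _ _ ?_ piece_disjoint
  rintro (c | j) _
  · have := forc_local.map (emb m c) (clL_map c)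
    rw [map_empty] at this
    exact this
  · have hne : (some (Sum.inr (j, true)) : Vx m) ≠ some (Sum.inr (j, false)) := by simp
    have hSW : SW (cl (gl m)) {some (Sum.inr (j, true))}
        (insert (some (Sum.inr (j, false))) ∅) := by
      refine SW.move (s := some (Sum.inr (j, true))) (mem_singleton_self _) (fun _ => ∅)
        (fun _ => empty_subset _) (fun _ => notMem_empty _) (fun _ => ?_)
      refine SW.win (c := {some (Sum.inr (j, true)), some (Sum.inr (j, false))})
        ⟨some (Sum.inr (j, true)), ?_⟩ ?_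
      · rintro u (rfl | h)
        · simp
        · rcases u with _ | p | p
          · exact absurd h (by
              intro h
              exact Bool.noConfusion h)
          · exact absurd h id
          · rcases p with ⟨j', b⟩
            have h1 : j' = j := h.1
            have h2 : b ≠ true := h.2
            subst h1
            cases b
            · simp
            · exact absurd rfl h2
      · intro u hu
        simpa using hu
    refine Forc.step (s := some (Sum.inr (j, false))) (r := some (Sum.inr (j, true))) ?_ ?_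
      (fun _ => {some (Sum.inr (j, true))}) ?_ ?_ ?_ ?_
    · exact mem_piece_inr.2 ⟨_, rfl⟩
    · rw [mem_erase]
      exact ⟨hne, mem_piece_inr.2 ⟨_, rfl⟩⟩
    · intro d _ u hu
      rw [mem_singleton] at hu
      subst hu
      rw [mem_erase]
      exact ⟨hne, mem_piece_inr.2 ⟨_, rfl⟩⟩
    · intro d hd
      rw [mem_singleton]
      exact hd
    · intro d _
      exact hSW
    · have : ((piece m (Sum.inr j)).erase (some (Sum.inr (j, false)))).erase
          (some (Sum.inr (j, true))) = ∅ := by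
        ext u
        simp only [piece, mem_erase, mem_insert, mem_singleton, notMem_empty, iff_false]
        tauto
      rw [this]
      exact Forc.nil

theorem not_wins_gl (m k : ℕ) (hk : k < 15 + m) : ¬ Wins (gl m) k ∅ ∅ := by
  have hnd : ¬ Dominating (gl m) ∅ := by
    intro h
    rcases h none with h | ⟨u, hu, _⟩
    · simp at h
    · simp at hu
  cases k with
  | zero => exact hnd
  | succ k =>
    rw [wins_succ]
    rintro (h | ⟨v, _, h⟩)
    · exact hnd h
    · by_cases hv : v = none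
      · subst hv
        refine (forc_gl m).not_winsS k _ ?_ (disjoint_empty_right _) ?_ h
        · intro v
          rw [mem_union_piece]
          simp
        · rw [card_union]
          omega
      · -- Staller wins in a copy that does not contain `v`
        have hc : ∃ c : Bool, v ∉ (ms (2 ^ 15 - 1)).map (emb m c) := by
          have key : ∀ c : Bool, v ∈ (ms (2 ^ 15 - 1)).map (emb m c) →
              ∃ i, v = some (Sum.inl (c, i)) := by
            intro c hc
            rw [mem_map] at hc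
            obtain ⟨i, _, hi⟩ := hc
            by_cases h14 : i.val < 14
            · rw [emb_lt h14] at hi
              exact ⟨_, hi.symm⟩
            · rw [emb_last (by omega)] at hi
              exact absurd hi.symm hv
          by_contra hcon
          push Not at hcon
          obtain ⟨i, hi⟩ := key true (hcon true)
          obtain ⟨i', hi'⟩ := key false (hcon false)
          rw [hi] at hi'
          simp at hi'
        obtain ⟨c, hc⟩ := hc
        have hsw := sw_local.map (emb m c) (clL_map c)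
        rw [map_empty] at hsw
        refine hsw.not_winsS k _ (disjoint_empty_right _) ?_ (disjoint_empty_left _) h
        rw [disjoint_left]
        intro u hu
        simp only [insert_empty_eq, mem_singleton] at hu
        subst hu
        exact hc

theorem gammaMB_gl (m : ℕ) : gammaMB (gl m) = ((15 + m : ℕ) : ℕ∞) := by
  rw [gammaMB]
  apply le_antisymm
  · exact iInf₂_le (f := fun (k : ℕ) (_ : Wins (gl m) k ∅ ∅) => (k : ℕ∞)) (15 + m) (wins_gl m)
  · refine le_iInf₂ fun k hk => ?_
    rw [Nat.cast_le]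
    by_contra hcon
    exact not_wins_gl m k (by omega) hk

/-! ### Connectedness -/

theorem reach_k (m : ℕ) (c : Bool) (i : Fin 14) :
    (gl m).Reachable (some (Sum.inl (c, i))) none := by
  have hadj : ∀ i j : Fin 14, kadj i j →
      (gl m).Reachable (some (Sum.inl (c, j))) none →
      (gl m).Reachable (some (Sum.inl (c, i))) none := by
    intro i j hij h
    refine SimpleGraph.Reachable.trans (SimpleGraph.Adj.reachable ?_) h
    exact ⟨rfl, hij⟩
  have h8 : (gl m).Reachable (some (Sum.inl (c, (8 : Fin 14)))) none := by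
    refine SimpleGraph.Adj.reachable ?_
    exact rfl
  have h1 := hadj 1 8 (by decide) h8
  have h7 := hadj 7 1 (by decide) h1
  have h12 := hadj 12 1 (by decide) h1
  have h2 := hadj 2 12 (by decide) h12
  have h4 := hadj 4 12 (by decide) h12
  have h9 := hadj 9 2 (by decide) h2
  have h10 := hadj 10 2 (by decide) h2
  have h0 := hadj 0 10 (by decide) h10
  have h3 := hadj 3 10 (by decide) h10
  have h11 := hadj 11 3 (by decide) h3
  have h5 := hadj 5 0 (by decide) h0
  have h6 := hadj 6 0 (by decide) h0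
  have h13 := hadj 13 9 (by decide) h9
  fin_cases i
  · exact h0
  · exact h1
  · exact h2
  · exact h3
  · exact h4
  · exact h5
  · exact h6
  · exact h7
  · exact h8
  · exact h9
  · exact h10
  · exact h11
  · exact h12
  · exact h13

theorem reach (m : ℕ) (v : Vx m) : (gl m).Reachable v none := by
  rcases v with _ | p | p
  · exact SimpleGraph.Reachable.refl _
  · exact reach_k m p.1 p.2
  · rcases p with ⟨j, b⟩
    have h0 : (gl m).Reachable (some (Sum.inr (j, false))) none := by
      refine SimpleGraph.Adj.reachable ?_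
      exact rfl
    cases b
    · exact h0
    · refine SimpleGraph.Reachable.trans (SimpleGraph.Adj.reachable ?_) h0
      exact ⟨rfl, by simp⟩

theorem connected_gl (m : ℕ) : (gl m).Connected := by
  have : Nonempty (Vx m) := ⟨none⟩
  exact ⟨fun u v => (reach m u).trans (reach m v).symm⟩

end Pool.Agent.MP374a5d
end
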